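import Mathlib

/-! MP_5c31ca_lc: the algebra. A matrix over `F_p[X]` with an eigenvalue whose `k`-th power is
`X^s` has one whose `k0`-th power is a power of `X`, for a universal `k0`. -/

open Polynomial Matrix

namespace Pool.X247.SO

variable {p : ℕ} [Fact p.Prime] {n : ℕ}

/-- the algebraic closure of the rational functions -/
abbrev Om (p : ℕ) [Fact p.Prime] := AlgebraicClosure (RatFunc (ZMod p))

noncomputable def psi (p : ℕ) [Fact p.Prime] : (ZMod p)[X] →+* Om p := algebraMap (ZMod p)[X] (Om p)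

theorem psi_eq (q : (ZMod p)[X]) : psi p q = algebraMap (RatFunc (ZMod p)) (Om p) (algebraMap (ZMod p)[X] (RatFunc (ZMod p)) q) := by
  unfold psi
  rw [IsScalarTower.algebraMap_apply (ZMod p)[X] (RatFunc (ZMod p)) (Om p)]

theorem psi_inj : Function.Injective (psi p) := by
  intro a b h
  rw [psi_eq, psi_eq] at h
  exact (IsFractionRing.injective (ZMod p)[X] (RatFunc (ZMod p))) ((algebraMap _ (Om p)).injective h)

theorem mem_spec {L : Type} [Field L] (M : Matrix (Fin n) (Fin n) L) (μ : L) :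
    μ ∈ spectrum L M ↔ (algebraMap L (Matrix (Fin n) (Fin n) L) μ - M).det = 0 := by
  rw [spectrum.mem_iff, Matrix.isUnit_iff_isUnit_det, isUnit_iff_ne_zero, not_not]

/-- the determinant `det (q - A^k)` -/
noncomputable def chi (A : Matrix (Fin n) (Fin n) (ZMod p)[X]) (q : (ZMod p)[X]) (k : ℕ) : (ZMod p)[X] :=
  (algebraMap (ZMod p)[X] (Matrix (Fin n) (Fin n) (ZMod p)[X]) q - A ^ k).det

theorem mapMatrix_algebraMap {R S : Type} [CommRing R] [CommRing S] (f : R →+* S) (q : R) :
    f.mapMatrix (algebraMap R (Matrix (Fin n) (Fin n) R) q) = algebraMap S (Matrix (Fin n) (Fin n) S) (f q) := by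
  ext i j
  simp only [RingHom.mapMatrix_apply, Matrix.map_apply, Matrix.algebraMap_matrix_apply]
  split_ifs <;> simp

theorem chi_iff (A : Matrix (Fin n) (Fin n) (ZMod p)[X]) (q : (ZMod p)[X]) (k : ℕ) :
    chi A q k = 0 ↔ psi p q ∈ spectrum (Om p) (((psi p).mapMatrix A) ^ k) := by
  rw [mem_spec, ← map_pow, ← mapMatrix_algebraMap, ← map_sub, ← RingHom.map_det]
  unfold chi
  constructor
  · intro h; rw [h, map_zero]
  · intro h; exact psi_inj (by rw [h, map_zero])

theorem spec_pow (A : Matrix (Fin n) (Fin n) (ZMod p)[X]) (q : (ZMod p)[X]) {k : ℕ} (hk : 0 < k) :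
    chi A q k = 0 ↔ ∃ l ∈ spectrum (Om p) ((psi p).mapMatrix A), l ^ k = psi p q := by
  rw [chi_iff, spectrum.map_pow_of_pos _ hk]
  rfl

theorem norm_step {l : Om p} {k s : ℕ} (hk : 0 < k) (hl : l ^ k = psi p (X ^ s)) :
    ∃ m : ℕ, k * m = s * (minpoly (RatFunc (ZMod p)) l).natDegree := by
  set K := RatFunc (ZMod p) with hK
  have hint : IsIntegral K l := Algebra.IsIntegral.isIntegral l
  set γ : IntermediateField.adjoin K {l} := IntermediateField.AdjoinSimple.gen K l with hγ
  have h1 : γ ^ k = algebraMap K (IntermediateField.adjoin K {l}) (algebraMap (ZMod p)[X] K (X ^ s)) := by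
    apply Subtype.ext
    have : ((γ ^ k : IntermediateField.adjoin K {l}) : Om p) = l ^ k := by
      rw [hγ]; simp
    rw [this, hl, psi_eq]
    rfl
  have h2 := congrArg (Algebra.norm K) h1
  rw [map_pow, Algebra.norm_algebraMap, IntermediateField.adjoin.finrank hint] at h2
  set g := (minpoly K l).natDegree with hg
  set c := Algebra.norm K γ with hc
  rw [map_pow, RatFunc.algebraMap_X, ← pow_mul] at h2
  have hpow : ∀ (x : K) (hx : x ≠ 0) (N : ℕ), RatFunc.intDegree (x ^ N) = N * RatFunc.intDegree x := by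
    intro x hx N
    induction N with
    | zero => simp
    | succ N ih =>
      rw [pow_succ, RatFunc.intDegree_mul (pow_ne_zero _ hx) hx, ih]
      push_cast; ring
  have hc0 : c ≠ 0 := by
    intro e
    rw [e, zero_pow hk.ne'] at h2
    exact (pow_ne_zero _ (RatFunc.X_ne_zero (K := ZMod p))) h2.symm
  have h3 := congrArg RatFunc.intDegree h2
  rw [hpow _ hc0, hpow _ RatFunc.X_ne_zero, RatFunc.intDegree_X, mul_one] at h3
  have h4 : 0 ≤ RatFunc.intDegree c := by
    by_contra h
    push Not at h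
    have : (k : ℤ) * RatFunc.intDegree c < 0 := mul_neg_of_pos_of_neg (by exact_mod_cast hk) h
    have h5 : (0 : ℤ) ≤ ((s * g : ℕ) : ℤ) := by positivity
    omega
  refine ⟨(RatFunc.intDegree c).toNat, ?_⟩
  zify
  rw [Int.toNat_of_nonneg h4, h3]
  push_cast; ring

theorem deg_le (A : Matrix (Fin n) (Fin n) (ZMod p)[X]) {l : Om p} (hl : l ∈ spectrum (Om p) ((psi p).mapMatrix A)) :
    (minpoly (RatFunc (ZMod p)) l).natDegree ≤ n := by
  set AK : Matrix (Fin n) (Fin n) (RatFunc (ZMod p)) := (algebraMap (ZMod p)[X] (RatFunc (ZMod p))).mapMatrix A with hAK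
  have h1 : (psi p).mapMatrix A = AK.map (algebraMap (RatFunc (ZMod p)) (Om p)) := by
    ext i j
    simp only [RingHom.mapMatrix_apply, Matrix.map_apply, hAK, psi_eq]
  rw [mem_spec, h1] at hl
  have h2 : aeval l AK.charpoly = 0 := by
    rw [aeval_def, ← eval_map, ← Matrix.charpoly_map, Matrix.eval_charpoly, ← hl]
    rfl
  have h3 := minpoly.dvd (RatFunc (ZMod p)) l h2
  have h4 := Polynomial.natDegree_le_of_dvd h3 (Matrix.charpoly_monic AK).ne_zero
  rwa [Matrix.charpoly_natDegree_eq_dim, Fintype.card_fin] at h4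

theorem mm_comp {R S T : Type} [CommRing R] [CommRing S] [CommRing T] (f : S →+* T) (g : R →+* S)
    (M : Matrix (Fin n) (Fin n) R) : f.mapMatrix (g.mapMatrix M) = (f.comp g).mapMatrix M := by
  ext i j
  simp

theorem transc : Transcendental (ZMod p) (psi p X) := by
  have h := RatFunc.transcendental_X (K := ZMod p)
  have h2 : psi p X = algebraMap (RatFunc (ZMod p)) (Om p) RatFunc.X := by
    rw [psi_eq, RatFunc.algebraMap_X]
  rw [h2]
  exact (transcendental_algebraMap_iff (algebraMap (RatFunc (ZMod p)) (Om p)).injective).2 h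

theorem zeta_deg (A : Matrix (Fin n) (Fin n) (ZMod p)[X]) {l : Om p} (hl : l ∈ spectrum (Om p) ((psi p).mapMatrix A))
    {g m : ℕ} (hg : 0 < g) {z : Om p} (hz : z * psi p (X ^ m) = l ^ g) (hint : IsIntegral (ZMod p) z) :
    (minpoly (ZMod p) z).natDegree ≤ n := by
  set F := ZMod p with hF
  set E := IntermediateField.adjoin F {z} with hE
  set zE : E := IntermediateField.AdjoinSimple.gen F z with hzE
  haveI : Algebra.IsAlgebraic F E := IntermediateField.isAlgebraic_adjoin_simple hint
  have htr : Transcendental E (psi p X) := (transc (p := p)).extendScalars E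
  rw [transcendental_iff_injective] at htr
  have h1 : l ^ g ∈ spectrum (Om p) (((psi p).mapMatrix A) ^ g) := by
    rw [spectrum.map_pow_of_pos _ hg]
    exact ⟨l, hl, rfl⟩
  rw [← map_pow, mem_spec] at h1
  set φ : E[X] →+* Om p := (aeval (R := E) (psi p X) : E[X] →ₐ[E] Om p).toRingHom with hφ
  have hφi : Function.Injective φ := htr
  set ι : F[X] →+* E[X] := mapRingHom (algebraMap F E) with hι
  have hcomp : φ.comp ι = psi p := by
    apply Polynomial.ringHom_ext
    · intro a
      simp only [hφ, hι, RingHom.comp_apply, coe_mapRingHom, map_C]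
      change aeval (psi p X) (C (algebraMap F E a)) = _
      rw [aeval_C]
      have : psi p (C a) = algebraMap F (Om p) a := by
        unfold psi
        rw [← Polynomial.algebraMap_eq, ← IsScalarTower.algebraMap_apply]
      rw [this]
      rfl
    · simp only [hφ, hι, RingHom.comp_apply, coe_mapRingHom, map_X]
      change aeval (psi p X) (X : E[X]) = _
      rw [aeval_X]
  set D : E[X] := (algebraMap E[X] (Matrix (Fin n) (Fin n) E[X]) (C zE * X ^ m) - ι.mapMatrix (A ^ g)).det with hD
  have hφD : φ D = 0 := by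
    rw [hD, RingHom.map_det, map_sub, mapMatrix_algebraMap]
    have e1 : φ (C zE * X ^ m) = l ^ g := by
      rw [← hz, map_mul, map_pow, map_pow]
      congr 1
      · change aeval (psi p X) (C zE) = _
        rw [aeval_C]
        rfl
      · congr 1
        change aeval (psi p X) (X : E[X]) = _
        rw [aeval_X]
    rw [e1, mm_comp, hcomp]
    exact h1
  have hD0 : D = 0 := hφi (by rw [hφD, map_zero])
  have h2 := congrArg (evalRingHom (1 : E)) hD0
  rw [map_zero, hD, RingHom.map_det, map_sub, mapMatrix_algebraMap, mm_comp] at h2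
  have hc2 : (evalRingHom (1 : E)).comp ι = (algebraMap F E).comp (evalRingHom (1 : F)) := by
    apply Polynomial.ringHom_ext
    · intro a
      simp [hι]
    · simp [hι]
  have e3 : evalRingHom (1 : E) (C zE * X ^ m) = zE := by simp
  rw [hc2, e3] at h2
  set N : Matrix (Fin n) (Fin n) F := (evalRingHom (1 : F)).mapMatrix (A ^ g) with hN
  have h3 : aeval zE N.charpoly = 0 := by
    rw [aeval_def, ← eval_map, ← Matrix.charpoly_map, Matrix.eval_charpoly, ← h2, ← mm_comp]
    rfl
  have h4 : aeval z N.charpoly = 0 := by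
    have := congrArg (algebraMap E (Om p)) h3
    rw [← aeval_algebraMap_apply, map_zero] at this
    exact this
  have h5 := minpoly.dvd F z h4
  have h6 := Polynomial.natDegree_le_of_dvd h5 (Matrix.charpoly_monic N).ne_zero
  rwa [Matrix.charpoly_natDegree_eq_dim, Fintype.card_fin] at h6

theorem zeta_pow {z : Om p} {k : ℕ} (hk : 0 < k) (hz : z ^ k = 1) (hd : (minpoly (ZMod p) z).natDegree ≤ n) :
    z ^ (p ^ n).factorial = 1 := by
  have hint : IsIntegral (ZMod p) z := ⟨X ^ k - 1, monic_X_pow_sub_C 1 hk.ne', by simp [hz]⟩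
  set E := IntermediateField.adjoin (ZMod p) {z} with hE
  set zE : E := IntermediateField.AdjoinSimple.gen (ZMod p) z with hzE
  haveI : FiniteDimensional (ZMod p) E := IntermediateField.adjoin.finiteDimensional hint
  haveI : Finite E := Module.finite_of_finite (ZMod p)
  haveI : Fintype E := Fintype.ofFinite E
  have hcard : Nat.card E = p ^ (minpoly (ZMod p) z).natDegree := by
    rw [Module.natCard_eq_pow_finrank (K := ZMod p), IntermediateField.adjoin.finrank hint, Nat.card_zmod]
  have hz0 : zE ≠ 0 := by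
    intro e
    have : z = 0 := congrArg (algebraMap E (Om p)) e
    rw [this, zero_pow hk.ne'] at hz
    exact zero_ne_one hz
  have h1 := FiniteField.pow_card_sub_one_eq_one zE hz0
  rw [← Nat.card_eq_fintype_card, hcard] at h1
  have hp : 1 < p := (Fact.out : p.Prime).one_lt
  have hdpos : 0 < (minpoly (ZMod p) z).natDegree := minpoly.natDegree_pos hint
  have h2 : p ^ (minpoly (ZMod p) z).natDegree - 1 ∣ (p ^ n).factorial := by
    apply Nat.dvd_factorial
    · have : 1 < p ^ (minpoly (ZMod p) z).natDegree := Nat.one_lt_pow hdpos.ne' hp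
      omega
    · have := Nat.pow_le_pow_right (n := p) (by omega) hd
      omega
  obtain ⟨c, hc⟩ := h2
  have h3 : zE ^ (p ^ n).factorial = 1 := by rw [hc, pow_mul, h1, one_pow]
  have h4 := congrArg (algebraMap E (Om p)) h3
  rw [map_pow, map_one] at h4
  exact h4

theorem alg_main (A : Matrix (Fin n) (Fin n) (ZMod p)[X]) {k s : ℕ} (hk : 0 < k) (h : chi A (X ^ s) k = 0)
    {k0 : ℕ} (h0 : 0 < k0) (hk0 : n.factorial * (p ^ n).factorial ∣ k0) : ∃ s0, chi A (X ^ s0) k0 = 0 := by
  obtain ⟨l, hl, hlk⟩ := (spec_pow A _ hk).1 h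
  obtain ⟨m, hm⟩ := norm_step hk hlk
  have hg := deg_le A hl
  set g := (minpoly (RatFunc (ZMod p)) l).natDegree with hgdef
  have hgpos : 0 < g := minpoly.natDegree_pos (Algebra.IsIntegral.isIntegral l)
  have hX : psi p X ≠ 0 := by
    intro e
    exact X_ne_zero (psi_inj (e.trans (map_zero _).symm))
  set z : Om p := l ^ g / psi p (X ^ m) with hz
  have hXm : psi p (X ^ m) ≠ 0 := by rw [map_pow]; exact pow_ne_zero _ hX
  have hzk : z ^ k = 1 := by
    rw [hz, div_pow, ← pow_mul, mul_comm g k, pow_mul, hlk, map_pow, map_pow, ← pow_mul, ← pow_mul,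
      mul_comm m k, hm, div_self (pow_ne_zero _ hX)]
  have hzl : z * psi p (X ^ m) = l ^ g := by rw [hz, div_mul_cancel₀ _ hXm]
  have hint : IsIntegral (ZMod p) z := ⟨X ^ k - 1, monic_X_pow_sub_C 1 hk.ne', by simp [hzk]⟩
  have hd := zeta_deg A hl hgpos hzl hint
  have hzf := zeta_pow hk hzk hd
  obtain ⟨c1, hc1⟩ : g ∣ n.factorial := Nat.dvd_factorial hgpos hg
  obtain ⟨c2, hc2⟩ := hk0
  refine ⟨m * ((p ^ n).factorial * (c1 * c2)), (spec_pow A _ h0).2 ⟨l, hl, ?_⟩⟩
  have e : k0 = g * ((p ^ n).factorial * (c1 * c2)) := by rw [hc2, hc1]; ring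
  rw [e, pow_mul, ← hzl, pow_mul, mul_pow, hzf, one_mul]
  simp only [map_pow, ← pow_mul]
  congr 1; ring

/-- a kernel vector from the determinant -/
theorem chi_vec (A : Matrix (Fin n) (Fin n) (ZMod p)[X]) (q : (ZMod p)[X]) (k : ℕ) :
    chi A q k = 0 ↔ ∃ v : Fin n → (ZMod p)[X], v ≠ 0 ∧ (A ^ k) *ᵥ v = q • v := by
  unfold chi
  rw [← Matrix.exists_mulVec_eq_zero_iff]
  have h : ∀ v : Fin n → (ZMod p)[X], (algebraMap (ZMod p)[X] (Matrix (Fin n) (Fin n) (ZMod p)[X]) q - A ^ k) *ᵥ v
      = q • v - (A ^ k) *ᵥ v := by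
    intro v
    rw [Matrix.sub_mulVec, Algebra.algebraMap_eq_smul_one, Matrix.smul_mulVec, Matrix.one_mulVec]
  constructor
  · rintro ⟨v, hv, h1⟩
    rw [h, sub_eq_zero] at h1
    exact ⟨v, hv, h1.symm⟩
  · rintro ⟨v, hv, h1⟩
    exact ⟨v, hv, by rw [h, h1, sub_self]⟩

end Pool.X247.SO
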