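import Mathlib

/-! MP_5c31ca_lc: the dynamics of one-sided additive maps on `ℤ → A`, solitons, periods, pumping. -/

namespace Pool.X247.SO

variable {A : Type} [AddCommGroup A]

/-- the map `F(x)_i = ∑_{j=-r}^{r} h_j (x_{i+j})` (the endomorphism `h_j` is `h (j + r)`) -/
def ca (r : ℕ) (h : Fin (2 * r + 1) → A →+ A) (x : ℤ → A) : ℤ → A :=
  fun i => ∑ j : Fin (2 * r + 1), h j (x (i + ((j : ℤ) - r)))

/-- `Δ(x,y)` -/
def Delta {B : Type} (x y : ℤ → B) : Set ℤ := {i | x i ≠ y i}

/-- the diameter of `S` is at most `D` -/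
def DiamLE (S : Set ℤ) (D : ℕ) : Prop := ∀ i ∈ S, ∀ j ∈ S, |i - j| ≤ D

/-- existence of a soliton -/
def HasSoliton {B : Type} (F : (ℤ → B) → (ℤ → B)) : Prop :=
  ∃ x y : ℤ → B, x ≠ y ∧ (Delta x y).Finite ∧ ∃ D : ℕ, ∀ t : ℕ, DiamLE (Delta (F^[t] x) (F^[t] y)) D

/-- the one-sided map -/
def os (m : ℕ) (h : Fin m → A →+ A) : (ℤ → A) →+ (ℤ → A) where
  toFun f := fun x => ∑ j : Fin m, h j (f (x - j))
  map_zero' := by ext x; simp
  map_add' f g := by
    ext x
    simp [Finset.sum_add_distrib]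

theorem os_apply (m : ℕ) (h : Fin m → A →+ A) (f : ℤ → A) (x : ℤ) :
    os m h f x = ∑ j : Fin m, h j (f (x - j)) := rfl

/-- translation -/
def tr (c : ℤ) (f : ℤ → A) : ℤ → A := fun x => f (x + c)

theorem os_tr (m : ℕ) (h : Fin m → A →+ A) (c : ℤ) (f : ℤ → A) : os m h (tr c f) = tr c (os m h f) := by
  ext x
  simp only [tr, os_apply]
  refine Finset.sum_congr rfl fun j _ => ?_
  congr 2; ring

theorem iter_tr (m : ℕ) (h : Fin m → A →+ A) (c : ℤ) (f : ℤ → A) (t : ℕ) :
    (os m h)^[t] (tr c f) = tr c ((os m h)^[t] f) := by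
  induction t with
  | zero => rfl
  | succ t ih => rw [Function.iterate_succ_apply', Function.iterate_succ_apply', ih, os_tr]

theorem tr_tr (a b : ℤ) (f : ℤ → A) : tr a (tr b f) = tr (a + b) f := by
  ext x; simp only [tr]; congr 1; ring

theorem tr_zero (f : ℤ → A) : tr 0 f = f := by ext x; simp [tr]

theorem ca_eq (r : ℕ) (h : Fin (2 * r + 1) → A →+ A) (x : ℤ → A) :
    ca r h x = tr r (os (2 * r + 1) (fun j => h j.rev) x) := by
  ext i
  simp only [ca, tr, os_apply]
  rw [← Equiv.sum_comp Fin.revPerm]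
  refine Finset.sum_congr rfl fun j _ => ?_
  simp only [Fin.revPerm_apply, Fin.rev_rev]
  congr 2
  have : ((Fin.rev j : Fin (2 * r + 1)) : ℕ) = 2 * r - j := by rw [Fin.val_rev]; omega
  rw [this]
  have := j.2
  omega

theorem ca_iter (r : ℕ) (h : Fin (2 * r + 1) → A →+ A) (x : ℤ → A) (t : ℕ) :
    (ca r h)^[t] x = tr (t * r) ((os (2 * r + 1) (fun j => h j.rev))^[t] x) := by
  induction t with
  | zero => simp [tr_zero]
  | succ t ih =>
    rw [Function.iterate_succ_apply', Function.iterate_succ_apply', ih, ca_eq, os_tr, tr_tr]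
    congr 1
    push_cast; ring

/-- locality -/
theorem loc (m : ℕ) (h : Fin m → A →+ A) : ∀ (k : ℕ) (f g : ℤ → A) (x y : ℤ),
    (∀ t : ℕ, t ≤ k * m → f (x - t) = g (y - t)) → (os m h)^[k] f x = (os m h)^[k] g y := by
  intro k
  induction k with
  | zero => intro f g x y H; simpa using H 0 (by simp)
  | succ k ih =>
    intro f g x y H
    rw [Function.iterate_succ_apply', Function.iterate_succ_apply', os_apply, os_apply]
    refine Finset.sum_congr rfl fun j _ => ?_
    congr 1
    refine ih f g _ _ fun t ht => ?_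
    have h1 := H (j + t) (by have := j.2; rw [Nat.succ_mul]; omega)
    push_cast at h1
    rw [sub_sub, sub_sub]
    exact h1

/-- support in `[0, L)` -/
def Sup (w : ℤ → A) (L : ℕ) : Prop := (∀ x : ℤ, x < 0 → w x = 0) ∧ (∀ x : ℤ, (L : ℤ) ≤ x → w x = 0)

theorem sup_iter (m : ℕ) (h : Fin m → A →+ A) {w : ℤ → A} {L : ℕ} (hw : Sup w L) (k : ℕ) :
    Sup ((os m h)^[k] w) (L + k * m) := by
  constructor
  · intro x hx
    have := loc m h k w 0 x x (fun t _ => by rw [hw.1 _ (by omega)]; rfl)
    rw [this, iterate_map_zero]; rfl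
  · intro x hx
    have := loc m h k w 0 x x (fun t ht => by
      rw [hw.2 _ (by push_cast at hx; have : (t : ℤ) ≤ k * m := by exact_mod_cast ht
                     omega)]; rfl)
    rw [this, iterate_map_zero]; rfl

/-- the relation `Φ^k w = 0` or `Φ^k w = σ^s w` -/
def Rel (F : (ℤ → A) → (ℤ → A)) (k : ℕ) (w : ℤ → A) : Prop :=
  F^[k] w = 0 ∨ ∃ s : ℕ, ∀ x, F^[k] w x = w (x - s)

theorem least_supp {w : ℤ → A} (hw : w ≠ 0) {b : ℤ} (hb : ∀ x, x < b → w x = 0) :
    ∃ a : ℤ, w a ≠ 0 ∧ ∀ x, x < a → w x = 0 := by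
  have h1 : ∃ z, w z ≠ 0 := by
    by_contra hc
    push Not at hc
    exact hw (funext hc)
  obtain ⟨a, ha, hmin⟩ := Int.exists_least_of_bdd (P := fun x => w x ≠ 0)
    ⟨b, fun z hz => by by_contra hc; exact hz (hb z (by omega))⟩ h1
  exact ⟨a, ha, fun x hx => by by_contra hc; have := hmin x hc; omega⟩

/-- a soliton gives a finitely supported configuration with `Φ^k w = 0` or `Φ^k w = σ^s w` -/
theorem sol_rel [Finite A] (m : ℕ) (h : Fin m → A →+ A) {w : ℤ → A} (hw : w ≠ 0) (hfin : {i | w i ≠ 0}.Finite)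
    {D : ℕ} (hD : ∀ t : ℕ, DiamLE {i | (os m h)^[t] w i ≠ 0} D) :
    ∃ (u : ℤ → A) (L k : ℕ), u ≠ 0 ∧ Sup u L ∧ 0 < k ∧ Rel (os m h) k u := by
  by_cases hz : ∃ t, (os m h)^[t] w = 0
  · obtain ⟨t, ht⟩ := hz
    have ht0 : 0 < t := by
      rcases Nat.eq_zero_or_pos t with rfl | h0
      · exact absurd ht hw
      · exact h0
    obtain ⟨b, hb⟩ := hfin.bddBelow
    obtain ⟨c, hc⟩ := hfin.bddAbove
    refine ⟨tr b w, (c - b + 1).toNat, t, ?_, ⟨?_, ?_⟩, ht0, Or.inl ?_⟩
    · intro e
      apply hw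
      funext x
      have := congrFun e (x - b)
      simpa [tr] using this
    · intro x hx
      by_contra hn
      have := hb (show x + b ∈ {i | w i ≠ 0} from hn)
      omega
    · intro x hx
      by_contra hn
      have := hc (show x + b ∈ {i | w i ≠ 0} from hn)
      omega
    · rw [iter_tr, ht]; rfl
  · push Not at hz
    have hbd : ∀ t, ∃ a : ℤ, (os m h)^[t] w a ≠ 0 ∧ ∀ x, x < a → (os m h)^[t] w x = 0 := by
      intro t
      have h1 : ∃ z, (os m h)^[t] w z ≠ 0 := by
        by_contra hc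
        push Not at hc
        exact hz t (funext hc)
      obtain ⟨z, hz1⟩ := h1
      refine least_supp (hz t) (b := z - D) fun x hx => ?_
      by_contra hn
      have := hD t z hz1 x hn
      rw [abs_le] at this
      omega
    choose a ha1 ha2 using hbd
    have ha3 : ∀ t, ∀ x : ℤ, a t + (D + 1 : ℕ) ≤ x → (os m h)^[t] w x = 0 := by
      intro t x hx
      by_contra hn
      have := hD t x hn (a t) (ha1 t)
      rw [abs_le] at this
      omega
    obtain ⟨t1', t2', hne', heq'⟩ := Finite.exists_ne_map_eq_of_infinite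
      (fun t : ℕ => (fun i : Fin (D + 1) => (os m h)^[t] w (a t + i)))
    obtain ⟨t1, t2, hlt, heq⟩ : ∃ t1 t2 : ℕ, t1 < t2 ∧
        (fun i : Fin (D + 1) => (os m h)^[t1] w (a t1 + i)) = (fun i : Fin (D + 1) => (os m h)^[t2] w (a t2 + i)) := by
      rcases lt_or_gt_of_ne hne' with h1 | h1
      · exact ⟨t1', t2', h1, heq'⟩
      · exact ⟨t2', t1', h1, heq'.symm⟩
    have hall : ∀ y : ℤ, (os m h)^[t1] w (a t1 + y) = (os m h)^[t2] w (a t2 + y) := by
      intro y
      by_cases hy : 0 ≤ y ∧ y < D + 1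
      · have := congrFun heq ⟨y.toNat, by omega⟩
        simp only [Int.toNat_of_nonneg hy.1] at this
        exact this
      · rw [not_and_or] at hy
        rcases hy with hy | hy
        · rw [ha2 t1 _ (by omega), ha2 t2 _ (by omega)]
        · rw [ha3 t1 _ (by push_cast; omega), ha3 t2 _ (by push_cast; omega)]
    set u := tr (a t1) ((os m h)^[t1] w) with hu
    have hu0 : u 0 ≠ 0 := by simpa [hu, tr] using ha1 t1
    have hsup : Sup u (D + 1) := by
      refine ⟨fun x hx => ha2 t1 _ (by omega), fun x hx => ha3 t1 _ (by push_cast at hx ⊢; omega)⟩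
    have hrel : ∀ x, (os m h)^[t2 - t1] u x = u (x - (a t2 - a t1)) := by
      intro x
      rw [hu, iter_tr]
      have h1 : (os m h)^[t2 - t1] ((os m h)^[t1] w) = (os m h)^[t2] w := by
        rw [← Function.iterate_add_apply]; congr 1; omega
      rw [h1]
      have h2 := hall (x - (a t2 - a t1))
      simp only [tr]
      rw [show x + a t1 = a t2 + (x - (a t2 - a t1)) by ring, ← h2]
      change (os m h)^[t1] w _ = (os m h)^[t1] w _
      congr 1; ring
    refine ⟨u, D + 1, t2 - t1, fun e => hu0 (by rw [e]; rfl), hsup, by omega, Or.inr ?_⟩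
    have hs : 0 ≤ a t2 - a t1 := by
      by_contra hc
      have h1 := hrel (a t2 - a t1)
      rw [sub_self, (sup_iter m h hsup _).1 _ (by omega)] at h1
      exact hu0 h1.symm
    refine ⟨(a t2 - a t1).toNat, fun x => ?_⟩
    rw [Int.toNat_of_nonneg hs]
    exact hrel x

/-- conversely -/
theorem rel_sol (m : ℕ) (h : Fin m → A →+ A) {u : ℤ → A} {L k : ℕ} (hs : Sup u L) (hk : 0 < k)
    (hr : Rel (os m h) k u) (t : ℕ) : DiamLE {i | (os m h)^[t] u i ≠ 0} (L + k * m) := by
  have key : ∀ t : ℕ, (os m h)^[t] u = 0 ∨ ∃ (c : ℤ) (r : ℕ), r < k ∧ (os m h)^[t] u = tr c ((os m h)^[r] u) := by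
    intro t
    induction t with
    | zero => exact Or.inr ⟨0, 0, hk, by rw [tr_zero]⟩
    | succ t ih =>
      rcases ih with ih | ⟨c, r, hr1, ih⟩
      · left; rw [Function.iterate_succ_apply', ih, map_zero]
      · by_cases hrk : r + 1 < k
        · right
          exact ⟨c, r + 1, hrk, by rw [Function.iterate_succ_apply', ih, os_tr, Function.iterate_succ_apply']⟩
        · have hk1 : k = r + 1 := by omega
          have h1 : (os m h)^[t + 1] u = tr c ((os m h)^[k] u) := by
            rw [Function.iterate_succ_apply', ih, os_tr, hk1, Function.iterate_succ_apply']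
          rcases hr with hr | ⟨s, hr⟩
          · left; rw [h1, hr]; rfl
          · right
            refine ⟨c - s, 0, hk, ?_⟩
            rw [h1]
            ext x
            simp only [tr, Function.iterate_zero, id]
            rw [hr]; congr 1; ring
  rcases key t with h1 | ⟨c, r, hrk, h1⟩
  · rw [h1]
    intro i hi
    exact absurd rfl hi
  · rw [h1]
    intro i hi j hj
    have hsr := sup_iter m h hs r
    have hle : r * m ≤ k * m := Nat.mul_le_mul_right m hrk.le
    have b1 : ∀ i : ℤ, tr c ((os m h)^[r] u) i ≠ 0 → 0 ≤ i + c ∧ i + c < (L + k * m : ℕ) := by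
      intro i hi
      constructor
      · by_contra hc
        exact hi (hsr.1 _ (by omega))
      · by_contra hc
        refine hi (hsr.2 _ ?_)
        push_cast at hc ⊢
        have : (r : ℤ) * m ≤ k * m := by exact_mod_cast hle
        omega
    have c1 := b1 i hi
    have c2 := b1 j hj
    rw [abs_le]
    omega

/-- pumping -/
theorem pump [Finite A] (m : ℕ) (h : Fin m → A →+ A) {k : ℕ} {w : ℤ → A} (hw : w ≠ 0) {L : ℕ} (hs : Sup w L)
    (hr : Rel (os m h) k w) :
    ∃ u : ℤ → A, u 0 ≠ 0 ∧ Sup u (Nat.card A ^ (k * m) + 1) ∧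
      ((os m h)^[k] u = 0 ∨ ∃ s : ℕ, s ≤ k * m ∧ ∀ x, (os m h)^[k] u x = u (x - s)) := by
  classical
  set R := k * m with hR
  -- the bound on the shift
  have hshift : ∀ (u : ℤ → A) (L : ℕ), u 0 ≠ 0 → Sup u L → ∀ s : ℕ, (∀ x, (os m h)^[k] u x = u (x - s)) → s ≤ R := by
    intro u L hu0 hsu s hrel
    by_contra hc
    -- the largest point of the support
    obtain ⟨b, hb, hmax⟩ := Int.exists_greatest_of_bdd (P := fun x => u x ≠ 0)
      ⟨L, fun z hz => by by_contra hc; exact hz (hsu.2 z (by omega))⟩ ⟨0, hu0⟩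
    have h1 := hrel (b + s)
    rw [add_sub_cancel_right] at h1
    have h2 : (os m h)^[k] u (b + s) = 0 := by
      have := loc m h k u 0 (b + s) (b + s) (fun t ht => by
        by_contra hn
        have h3 := hmax _ hn
        omega)
      rw [this, iterate_map_zero]; rfl
    rw [h2] at h1
    exact hb h1.symm
  -- normal form
  have hex : ∃ (L : ℕ) (u : ℤ → A), u 0 ≠ 0 ∧ Sup u L ∧ Rel (os m h) k u := by
    obtain ⟨a, ha, hmin⟩ := least_supp hw hs.1
    have ha0 : 0 ≤ a := by
      by_contra hc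
      exact ha (hs.1 a (by omega))
    refine ⟨L, tr a w, by simpa [tr] using ha, ⟨fun x hx => hmin _ (by omega), fun x hx => hs.2 _ (by omega)⟩, ?_⟩
    rcases hr with hr | ⟨s, hr⟩
    · left; rw [iter_tr, hr]; rfl
    · right
      refine ⟨s, fun x => ?_⟩
      rw [iter_tr]
      simp only [tr]
      rw [hr]; congr 1; ring
  obtain ⟨u, hu0, hsu, hru⟩ := Nat.find_spec hex
  have hmin := fun L' (hL' : L' < Nat.find hex) => Nat.find_min hex hL'
  set L' := Nat.find hex with hL'
  have hshort : L' ≤ Nat.card A ^ R + 1 := by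
    by_contra hc
    push Not at hc
    -- two equal windows
    haveI : Fintype A := Fintype.ofFinite A
    obtain ⟨i', j', hne', heq'⟩ := Fintype.exists_ne_map_eq_of_card_lt
      (fun i : Fin (Nat.card A ^ R + 1) => (fun t : Fin R => u ((i : ℕ) + 1 + (t : ℕ))))
      (by rw [Fintype.card_fun, Fintype.card_fin, Fintype.card_fin, Nat.card_eq_fintype_card]; omega)
    obtain ⟨i, j, hij, hj, hi1, heq⟩ : ∃ i j : ℕ, i < j ∧ j ≤ Nat.card A ^ R + 1 ∧ 1 ≤ i ∧
        ∀ t : ℕ, t < R → u (i + t) = u (j + t) := by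
      rcases lt_or_gt_of_ne hne' with h1 | h1
      · refine ⟨i' + 1, j' + 1, by simpa using h1, by have := j'.2; omega, by omega, fun t ht => ?_⟩
        have := congrFun heq' ⟨t, ht⟩
        push_cast; exact this
      · refine ⟨j' + 1, i' + 1, by simpa using h1, by have := i'.2; omega, by omega, fun t ht => ?_⟩
        have := congrFun heq'.symm ⟨t, ht⟩
        push_cast; exact this
    set d : ℕ := j - i with hd
    set v : ℤ → A := fun x => if x < i then u x else u (x + d) with hv
    have hv1 : ∀ x : ℤ, x < i + R → v x = u x := by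
      intro x hx
      simp only [hv]
      split_ifs with h1
      · rfl
      · have := heq (x - i).toNat (by omega)
        rw [Int.toNat_of_nonneg (by omega)] at this
        rw [show (i : ℤ) + (x - i) = x by ring] at this
        rw [this]; congr 1; omega
    have hv2 : ∀ x : ℤ, (i : ℤ) ≤ x → v x = u (x + d) := by
      intro x hx
      simp only [hv]
      rw [if_neg (by omega)]
    have hloc : ∀ x : ℤ, (∀ t : ℕ, t ≤ R → v (x - t) = u (x - t)) ∨ (∀ t : ℕ, t ≤ R → v (x - t) = u (x + d - t)) := by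
      intro x
      by_cases hx : x < i + R
      · left; intro t ht; exact hv1 _ (by omega)
      · right; intro t ht; rw [hv2 _ (by omega)]; congr 1; ring
    have hiter : ∀ x : ℤ, (∀ t : ℕ, t ≤ R → v (x - t) = u (x - t)) → (os m h)^[k] v x = (os m h)^[k] u x :=
      fun x H => loc m h k v u x x H
    have hiter2 : ∀ x : ℤ, (∀ t : ℕ, t ≤ R → v (x - t) = u (x + d - t)) → (os m h)^[k] v x = (os m h)^[k] u (x + d) :=
      fun x H => loc m h k v u x (x + d) H
    have hv0 : v 0 ≠ 0 := by
      simp only [hv]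
      rw [if_pos (by omega)]
      exact hu0
    have hsv : Sup v (L' - d) := by
      refine ⟨fun x hx => ?_, fun x hx => ?_⟩
      · simp only [hv]; rw [if_pos (by omega)]; exact hsu.1 x hx
      · rw [hv2 x (by omega)]
        exact hsu.2 _ (by omega)
    have hrv : Rel (os m h) k v := by
      rcases hru with hru | ⟨s, hru⟩
      · left
        ext x
        rcases hloc x with H | H
        · rw [hiter x H, hru]
        · rw [hiter2 x H, hru]; rfl
      · right
        have hsR := hshift u L' hu0 hsu s hru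
        refine ⟨s, fun x => ?_⟩
        rcases hloc x with H | H
        · rw [hiter x H, hru, H s hsR]
        · rw [hiter2 x H, hru, H s hsR]
    exact hmin (L' - d) (by omega) ⟨v, hv0, hsv, hrv⟩
  have hsu2 : ∀ x : ℤ, ((Nat.card A ^ R + 1 : ℕ) : ℤ) ≤ x → u x = 0 := by
    intro x hx
    refine hsu.2 x (le_trans ?_ hx)
    exact_mod_cast hshort
  refine ⟨u, hu0, ⟨hsu.1, hsu2⟩, ?_⟩
  rcases hru with hru | ⟨s, hru⟩
  · exact Or.inl hru
  · exact Or.inr ⟨s, hshift u L' hu0 hsu s hru, hru⟩

/-- solitons of the CA in terms of the one-sided map -/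
theorem hasSoliton_iff (r : ℕ) (h : Fin (2 * r + 1) → A →+ A) : HasSoliton (ca r h) ↔
    ∃ w : ℤ → A, w ≠ 0 ∧ {i | w i ≠ 0}.Finite ∧ ∃ D : ℕ, ∀ t : ℕ,
      DiamLE {i | (os (2 * r + 1) (fun j => h j.rev))^[t] w i ≠ 0} D := by
  have hD : ∀ (x y : ℤ → A) (t : ℕ), Delta ((ca r h)^[t] x) ((ca r h)^[t] y) =
      {i | (os (2 * r + 1) (fun j => h j.rev))^[t] (x - y) (i + t * r) ≠ 0} := by
    intro x y t
    ext i
    simp only [Delta, Set.mem_setOf_eq, ca_iter, tr]
    rw [iterate_map_sub, Pi.sub_apply, sub_ne_zero]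
  have hT : ∀ (S : Set ℤ) (c : ℤ) (D : ℕ), DiamLE {i | i + c ∈ S} D ↔ DiamLE S D := by
    intro S c D
    constructor
    · intro H i hi j hj
      have := H (i - c) (by simpa using hi) (j - c) (by simpa using hj)
      rwa [show i - c - (j - c) = i - j by ring] at this
    · intro H i hi j hj
      have := H _ hi _ hj
      rwa [show i + c - (j + c) = i - j by ring] at this
  constructor
  · rintro ⟨x, y, hne, hfin, D, H⟩
    refine ⟨x - y, sub_ne_zero.2 hne, ?_, D, fun t => ?_⟩
    · convert hfin using 1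
      ext i
      simp [Delta, sub_eq_zero]
    · have := H t
      rw [hD] at this
      exact (hT {i | (os (2 * r + 1) (fun j => h j.rev))^[t] (x - y) i ≠ 0} (t * r) D).1 this
  · rintro ⟨w, hw, hfin, D, H⟩
    refine ⟨w, 0, hw, by simpa [Delta] using hfin, D, fun t => ?_⟩
    rw [hD, sub_zero]
    exact (hT {i | (os (2 * r + 1) (fun j => h j.rev))^[t] w i ≠ 0} (t * r) D).2 (H t)

end Pool.X247.SO
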