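import Pool.Agent.X247.SO.Alg
import Pool.Agent.X247.SO.Dyn

/-! MP_5c31ca_lc: from configurations to vectors of polynomials. -/

open Polynomial Matrix

namespace Pool.X247.SO

section modp

variable {p : ℕ} [Fact p.Prime] {B : Type} [AddCommGroup B] [Module (ZMod p) B] {n : ℕ}
  (b : Module.Basis (Fin n) (ZMod p) B)

/-- correspondence of configurations and vectors of polynomials -/
def Corr (w : ℤ → B) (v : Fin n → (ZMod p)[X]) : Prop :=
  (∀ x : ℤ, x < 0 → w x = 0) ∧ ∀ (x : ℕ) (i : Fin n), (v i).coeff x = b.repr (w x) i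

/-- the matrix of the one-sided map -/
noncomputable def mat {m : ℕ} (h : Fin m → B →+ B) : Matrix (Fin n) (Fin n) (ZMod p)[X] :=
  fun i i' => ∑ j : Fin m, C (LinearMap.toMatrix b b (AddMonoidHom.toZModLinearMap p (h j)) i i') * X ^ (j : ℕ)

variable {b}

theorem corr_mat {m : ℕ} (h : Fin m → B →+ B) {w : ℤ → B} {v : Fin n → (ZMod p)[X]} (hc : Corr b w v) :
    Corr b (os m h w) (mat b h *ᵥ v) := by
  constructor
  · intro x hx
    rw [os_apply]
    refine Finset.sum_eq_zero fun j _ => ?_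
    rw [hc.1 _ (by omega), map_zero]
  · intro x i
    rw [os_apply, map_sum, Finsupp.finset_sum_apply]
    simp only [Matrix.mulVec, dotProduct, mat, Finset.sum_mul, finset_sum_coeff]
    rw [Finset.sum_comm]
    refine Finset.sum_congr rfl fun j _ => ?_
    by_cases hj : (j : ℕ) ≤ x
    · have h1 : ∀ i' : Fin n, (C (LinearMap.toMatrix b b (AddMonoidHom.toZModLinearMap p (h j)) i i') * X ^ (j : ℕ) * v i').coeff x
          = LinearMap.toMatrix b b (AddMonoidHom.toZModLinearMap p (h j)) i i' * b.repr (w (x - j)) i' := by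
        intro i'
        rw [mul_assoc, coeff_C_mul, coeff_X_pow_mul', if_pos hj, hc.2]
        congr 4
        push_cast [hj]
        ring
      rw [Finset.sum_congr rfl fun i' _ => h1 i']
      have h2 := LinearMap.toMatrix_mulVec_repr b b (AddMonoidHom.toZModLinearMap p (h j)) (w (x - j))
      have h3 := congrFun h2 i
      simp only [Matrix.mulVec, dotProduct] at h3
      rw [h3]
      rfl
    · have h1 : ∀ i' : Fin n, (C (LinearMap.toMatrix b b (AddMonoidHom.toZModLinearMap p (h j)) i i') * X ^ (j : ℕ) * v i').coeff x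
          = 0 := by
        intro i'
        rw [mul_assoc, coeff_C_mul, coeff_X_pow_mul', if_neg hj, mul_zero]
      rw [Finset.sum_congr rfl fun i' _ => h1 i', Finset.sum_const_zero, hc.1 _ (by omega), map_zero, map_zero]
      rfl

theorem corr_iter {m : ℕ} (h : Fin m → B →+ B) {w : ℤ → B} {v : Fin n → (ZMod p)[X]} (hc : Corr b w v) (k : ℕ) :
    Corr b ((os m h)^[k] w) ((mat b h) ^ k *ᵥ v) := by
  induction k with
  | zero => simpa using hc
  | succ k ih =>
    rw [Function.iterate_succ_apply', pow_succ', ← Matrix.mulVec_mulVec]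
    exact corr_mat h ih

theorem corr_shift {w : ℤ → B} {v : Fin n → (ZMod p)[X]} (hc : Corr b w v) (s : ℕ) :
    Corr b (fun x => w (x - s)) ((X ^ s : (ZMod p)[X]) • v) := by
  constructor
  · intro x hx
    exact hc.1 _ (by omega)
  · intro x i
    rw [Pi.smul_apply, smul_eq_mul, coeff_X_pow_mul']
    split_ifs with h1
    · rw [hc.2]
      congr 3
      push_cast [h1]
      ring
    · change 0 = b.repr (w ((x : ℤ) - s)) i
      rw [hc.1 _ (by omega), map_zero]; rfl

theorem corr_inj {w w' : ℤ → B} {v v' : Fin n → (ZMod p)[X]} (hc : Corr b w v) (hc' : Corr b w' v') :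
    w = w' ↔ v = v' := by
  constructor
  · rintro rfl
    ext i x
    rw [hc.2, hc'.2]
  · rintro rfl
    ext x
    by_cases hx : x < 0
    · rw [hc.1 x hx, hc'.1 x hx]
    · obtain ⟨y, rfl⟩ := Int.eq_ofNat_of_zero_le (not_lt.1 hx)
      apply b.repr.injective
      ext i
      rw [← hc.2, ← hc'.2]

theorem corr_zero : Corr b (0 : ℤ → B) (0 : Fin n → (ZMod p)[X]) := by
  constructor
  · intro x _; rfl
  · intro x i; simp

theorem corr_exists {w : ℤ → B} {L : ℕ} (hs : Sup w L) : ∃ v : Fin n → (ZMod p)[X], Corr b w v := by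
  refine ⟨fun i => ∑ x ∈ Finset.range L, C (b.repr (w x) i) * X ^ x, hs.1, ?_⟩
  intro x i
  rw [finset_sum_coeff]
  simp only [coeff_C_mul, coeff_X_pow]
  by_cases hx : x < L
  · rw [Finset.sum_eq_single x]
    · simp
    · intro y _ hy; rw [if_neg (fun e => hy e.symm), mul_zero]
    · intro hn; exact absurd (Finset.mem_range.2 hx) hn
  · rw [Finset.sum_eq_zero]
    · rw [hs.2 _ (by omega), map_zero]; rfl
    · intro y hy
      rw [Finset.mem_range] at hy
      rw [if_neg (by omega), mul_zero]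

theorem corr_exists' (v : Fin n → (ZMod p)[X]) : ∃ (w : ℤ → B) (L : ℕ), Sup w L ∧ Corr b w v := by
  set w : ℤ → B := fun x => if x < 0 then 0 else b.equivFun.symm (fun i => (v i).coeff x.toNat) with hw
  have hneg : ∀ x : ℤ, x < 0 → w x = 0 := by
    intro x hx
    simp only [hw]
    rw [if_pos hx]
  refine ⟨w, (Finset.univ.sup fun i => (v i).natDegree) + 1, ⟨hneg, ?_⟩, hneg, ?_⟩
  · intro x hx
    simp only [hw]
    rw [if_neg (by omega)]
    have : (fun i => (v i).coeff x.toNat) = 0 := by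
      ext i
      rw [coeff_eq_zero_of_natDegree_lt]
      · rfl
      · have := Finset.le_sup (f := fun i => (v i).natDegree) (Finset.mem_univ i)
        omega
    rw [this, map_zero]
  · intro x i
    simp only [hw]
    rw [if_neg (by omega)]
    have h1 := b.equivFun_apply (b.equivFun.symm (fun i => (v i).coeff (x : ℤ).toNat))
    rw [← h1, LinearEquiv.apply_symm_apply]
    simp

theorem modp_main {m : ℕ} (b : Module.Basis (Fin n) (ZMod p) B) (h : Fin m → B →+ B) {w : ℤ → B} (hw : w ≠ 0)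
    {L k s : ℕ} (hs : Sup w L) (hk : 0 < k) (hr : ∀ x, (os m h)^[k] w x = w (x - s))
    {k0 : ℕ} (h0 : 0 < k0) (hk0 : n.factorial * (p ^ n).factorial ∣ k0) :
    ∃ (w' : ℤ → B) (L' : ℕ), w' ≠ 0 ∧ Sup w' L' ∧ ∃ s0 : ℕ, ∀ x, (os m h)^[k0] w' x = w' (x - s0) := by
  obtain ⟨v, hv⟩ := corr_exists (b := b) hs
  have h1 : (mat b h) ^ k *ᵥ v = (X ^ s : (ZMod p)[X]) • v :=
    (corr_inj (corr_iter h hv k) (corr_shift hv s)).1 (funext hr)
  have hv0 : v ≠ 0 := by
    intro e
    exact hw ((corr_inj hv corr_zero).2 e)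
  have h2 : chi (mat b h) (X ^ s) k = 0 := (chi_vec _ _ _).2 ⟨v, hv0, h1⟩
  obtain ⟨s0, h3⟩ := alg_main (mat b h) hk h2 h0 hk0
  obtain ⟨v', hv', h4⟩ := (chi_vec _ _ _).1 h3
  obtain ⟨w', L', hs', hc'⟩ := corr_exists' (b := b) v'
  refine ⟨w', L', ?_, hs', s0, ?_⟩
  · intro e
    exact hv' ((corr_inj hc' corr_zero).1 e)
  · have := (corr_inj (corr_iter h hc' k0) (corr_shift hc' s0)).2 h4
    exact fun x => congrFun this x

omit b in
theorem modp_basis [Finite B] : ∃ (n : ℕ) (_ : Module.Basis (Fin n) (ZMod p) B), p ^ n = Nat.card B := by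
  haveI : Module.Finite (ZMod p) B := Module.Finite.of_finite
  refine ⟨Module.finrank (ZMod p) B, Module.finBasis (ZMod p) B, ?_⟩
  have h1 := Module.natCard_eq_pow_finrank (K := ZMod p) (V := B)
  rw [Nat.card_zmod] at h1
  exact h1.symm

end modp

variable {A : Type} [AddCommGroup A]

/-- the `p`-torsion -/
def tor (A : Type) [AddCommGroup A] (p : ℕ) : AddSubgroup A where
  carrier := {a | p • a = 0}
  zero_mem' := smul_zero p
  add_mem' := by
    intro a c ha hc
    change p • (a + c) = 0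
    rw [smul_add, ha, hc, add_zero]
  neg_mem' := by
    intro a ha
    change p • (-a) = 0
    rw [smul_neg, ha, neg_zero]

def torMap (p : ℕ) (f : A →+ A) : tor A p →+ tor A p :=
  (f.comp (tor A p).subtype).codRestrict (tor A p) (fun x => by
    change p • f (x : A) = 0
    rw [← map_nsmul]
    have : p • (x : A) = 0 := x.2
    rw [this, map_zero])

theorem torMap_coe (p : ℕ) (f : A →+ A) (x : tor A p) : ((torMap p f x : tor A p) : A) = f x := rfl

theorem os_tor (m p : ℕ) (h : Fin m → A →+ A) (w : ℤ → tor A p) (x : ℤ) :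
    ((os m (fun j => torMap p (h j)) w x : tor A p) : A) = os m h (fun x => (w x : A)) x := by
  rw [os_apply, os_apply, AddSubgroup.val_finset_sum]
  rfl

theorem iter_tor (m p : ℕ) (h : Fin m → A →+ A) (w : ℤ → tor A p) (k : ℕ) :
    (fun x => (((os m (fun j => torMap p (h j)))^[k] w x : tor A p) : A)) = (os m h)^[k] (fun x => (w x : A)) := by
  induction k with
  | zero => rfl
  | succ k ih =>
    rw [Function.iterate_succ_apply', Function.iterate_succ_apply', ← ih]
    ext x
    rw [os_tor]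

theorem shift_main [Finite A] {m : ℕ} (h : Fin m → A →+ A) {u : ℤ → A} (hu : u ≠ 0) {L k s : ℕ} (hs : Sup u L)
    (hk : 0 < k) (hr : ∀ x, (os m h)^[k] u x = u (x - s)) {k0 : ℕ} (h0 : 0 < k0)
    (hk0 : ∀ p n : ℕ, p.Prime → p ^ n ≤ Nat.card A → n.factorial * (p ^ n).factorial ∣ k0) :
    ∃ (w' : ℤ → A) (L' : ℕ), w' ≠ 0 ∧ Sup w' L' ∧ ∃ s0 : ℕ, ∀ x, (os m h)^[k0] w' x = w' (x - s0) := by
  classical
  have hex : ∃ N : ℕ, 0 < N ∧ N • u = 0 := by
    refine ⟨Nat.card A, Nat.card_pos, ?_⟩
    ext x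
    exact card_nsmul_eq_zero'
  obtain ⟨hN, hNu⟩ := Nat.find_spec hex
  have hmin := fun N' (hN' : N' < Nat.find hex) => Nat.find_min hex hN'
  set N := Nat.find hex with hNdef
  have hN1 : N ≠ 1 := by
    intro e
    rw [e, one_smul] at hNu
    exact hu hNu
  set p := N.minFac with hp
  have hpp : p.Prime := Nat.minFac_prime hN1
  haveI : Fact p.Prime := ⟨hpp⟩
  obtain ⟨c, hc⟩ := Nat.minFac_dvd N
  rw [← hp] at hc
  have hc0 : 0 < c := by
    rcases Nat.eq_zero_or_pos c with h1 | h1
    · rw [h1, mul_zero] at hc; omega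
    · exact h1
  have hcN : c < N := by
    rw [hc]
    have := hpp.one_lt
    nlinarith
  have hu' : c • u ≠ 0 := fun e => hmin c hcN ⟨hc0, e⟩
  have htor : ∀ x, c • u x ∈ tor A p := by
    intro x
    change p • c • u x = 0
    rw [← mul_smul, ← hc]
    exact congrFun hNu x
  set w : ℤ → tor A p := fun x => ⟨c • u x, htor x⟩ with hw
  have hwc : (fun x => (w x : A)) = c • u := rfl
  have hw0 : w ≠ 0 := by
    intro e
    apply hu'
    rw [← hwc, e]
    rfl
  have hsw : Sup w L := by
    refine ⟨fun x hx => Subtype.ext ?_, fun x hx => Subtype.ext ?_⟩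
    · change c • u x = 0
      rw [hs.1 x hx, smul_zero]
    · change c • u x = 0
      rw [hs.2 x hx, smul_zero]
  have hrw : ∀ x, (os m (fun j => torMap p (h j)))^[k] w x = w (x - s) := by
    intro x
    apply Subtype.ext
    have h1 := congrFun (iter_tor m p h w k) x
    rw [h1, hwc]
    have h2 : (os m h)^[k] (c • u) = c • (os m h)^[k] u := iterate_map_nsmul (os m h) k u c
    rw [h2, Pi.smul_apply, hr]
  letI : Module (ZMod p) (tor A p) := AddCommGroup.zmodModule (fun x => Subtype.ext x.2)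
  haveI : Finite (tor A p) := inferInstance
  obtain ⟨n, b, hn⟩ := modp_basis (p := p) (B := tor A p)
  have hcard : p ^ n ≤ Nat.card A := by
    rw [hn]
    exact Nat.card_le_card_of_injective (tor A p).subtype Subtype.val_injective
  obtain ⟨w', L', hw', hs', s0, hr'⟩ := modp_main b (fun j => torMap p (h j)) hw0 hsw hk hrw h0 (hk0 p _ hpp hcard)
  refine ⟨fun x => (w' x : A), L', ?_, ?_, s0, ?_⟩
  · intro e
    apply hw'
    ext x
    exact congrFun e x
  · exact ⟨fun x hx => congrArg (Subtype.val) (hs'.1 x hx), fun x hx => congrArg (Subtype.val) (hs'.2 x hx)⟩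
  · intro x
    rw [← iter_tor]
    simp only
    rw [hr']

/-- the universal exponent -/
def kk (a : ℕ) : ℕ := a.factorial * a.factorial

theorem kk_pos (a : ℕ) : 0 < kk a := Nat.mul_pos (Nat.factorial_pos a) (Nat.factorial_pos a)

theorem kk_dvd {a p n : ℕ} (hp : p.Prime) (h : p ^ n ≤ a) : n.factorial * (p ^ n).factorial ∣ kk a := by
  have h1 : n ≤ a := (Nat.lt_pow_self hp.one_lt).le.trans h
  exact Nat.mul_dvd_mul (Nat.factorial_dvd_factorial h1) (Nat.factorial_dvd_factorial h)

theorem os_iff [Finite A] (m : ℕ) (g : Fin m → A →+ A) : (∃ w : ℤ → A, w ≠ 0 ∧ {i | w i ≠ 0}.Finite ∧ ∃ D : ℕ, ∀ t : ℕ,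
      DiamLE {i | (os m g)^[t] w i ≠ 0} D) ↔
    ∃ u : ℤ → A, u 0 ≠ 0 ∧ Sup u (Nat.card A ^ (kk (Nat.card A) * m) + 1) ∧
      ((os m g)^[kk (Nat.card A)] u = 0 ∨ ∃ s : ℕ, s ≤ kk (Nat.card A) * m ∧
          ∀ x, (os m g)^[kk (Nat.card A)] u x = u (x - s)) := by
  set k0 := kk (Nat.card A) with hk0
  have h0 : 0 < k0 := kk_pos _
  constructor
  · rintro ⟨w, hw, hfin, D, hD⟩
    obtain ⟨u, L, k, hu, hs, hk, hr⟩ := sol_rel m g hw hfin hD
    rcases hr with hr | ⟨s, hr⟩
    · -- kernel case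
      have hex : ∃ j, (os m g)^[j] u = 0 := ⟨k, hr⟩
      classical
      have hf := Nat.find_spec hex
      have hmin := fun j' (hj' : j' < Nat.find hex) => Nat.find_min hex hj'
      set j := Nat.find hex with hj
      have hj0 : 0 < j := by
        rcases Nat.eq_zero_or_pos j with h1 | h1
        · rw [h1] at hf; exact absurd hf hu
        · exact h1
      have hne := hmin (j - 1) (by omega)
      have hsv := sup_iter m g hs (j - 1)
      have hrel : Rel (os m g) k0 ((os m g)^[j - 1] u) := by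
        left
        rw [← Function.iterate_add_apply, show k0 + (j - 1) = (k0 - 1) + j by omega, Function.iterate_add_apply, hf,
          iterate_map_zero]
      exact pump m g hne hsv hrel
    · obtain ⟨w', L', hw', hs', s0, hr'⟩ := shift_main g hu hs hk hr h0 (fun p n hp hle => kk_dvd hp hle)
      exact pump m g hw' hs' (Or.inr ⟨s0, hr'⟩)
  · rintro ⟨u, hu, hs, hr⟩
    have hr' : Rel (os m g) k0 u := by
      rcases hr with hr | ⟨s, -, hr⟩
      · exact Or.inl hr
      · exact Or.inr ⟨s, hr⟩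
    refine ⟨u, fun e => hu (by rw [e]; rfl), ?_, _, rel_sol m g hs h0 hr'⟩
    refine (Set.finite_Ico (0 : ℤ) ((Nat.card A ^ (k0 * m) + 1 : ℕ) : ℤ)).subset ?_
    intro x hx
    rw [Set.mem_Ico]
    constructor
    · by_contra hc
      exact hx (hs.1 x (by omega))
    · by_contra hc
      exact hx (hs.2 x (by omega))

/-- solitons are detected with the universal exponent -/
theorem soliton_iff [Finite A] (r : ℕ) (h : Fin (2 * r + 1) → A →+ A) : HasSoliton (ca r h) ↔
    ∃ u : ℤ → A, u 0 ≠ 0 ∧ Sup u (Nat.card A ^ (kk (Nat.card A) * (2 * r + 1)) + 1) ∧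
      ((os (2 * r + 1) (fun j => h j.rev))^[kk (Nat.card A)] u = 0 ∨
        ∃ s : ℕ, s ≤ kk (Nat.card A) * (2 * r + 1) ∧
          ∀ x, (os (2 * r + 1) (fun j => h j.rev))^[kk (Nat.card A)] u x = u (x - s)) := by
  rw [hasSoliton_iff]
  exact os_iff _ _

end Pool.X247.SO
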