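import Pool.Agent.X247.SO.Bridge

/-! MP_5c31ca_lc: the decision procedure, its correctness and its computability. -/

namespace Pool.X247.SO

/-- codes: size of the alphabet, radius, addition table, value tables of the endomorphisms -/
abbrev Code := ℕ × (ℕ × (List (List ℕ) × List (List ℕ)))

/-- table lookup -/
def tb (T : List (List ℕ)) (a b : ℕ) : ℕ := (T.getD a []).getD b 0

/-- the index of the neutral element -/
def zr (T : List (List ℕ)) : ℕ := (List.range T.length).foldl (fun acc z => if tb T z z = z then z else acc) 0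

def val (w : List ℕ) (z x j : ℕ) : ℕ := if j ≤ x then w.getD (x - j) z else z

def nn (c : Code) : ℕ := c.1
def rr (c : Code) : ℕ := c.2.1
def TT (c : Code) : List (List ℕ) := c.2.2.1
def HH (c : Code) : List (List ℕ) := c.2.2.2
def zz (c : Code) : ℕ := zr (TT c)
def k0 (c : Code) : ℕ := kk (nn c)
def RR (c : Code) : ℕ := k0 c * (2 * rr c + 1)
def L0 (c : Code) : ℕ := nn c ^ RR c + 1
def KK (c : Code) : ℕ := L0 c + RR c + 1

/-- one step on words, on the window `[0, KK c)` -/
def stepL (c : Code) (w : List ℕ) : List ℕ :=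
  (List.range (KK c)).map (fun x => (List.range (2 * rr c + 1)).foldl
    (fun acc j => tb (TT c) acc (tb (HH c) (2 * rr c - j) (val w (zz c) x j))) (zz c))

def itL (c : Code) (w : List ℕ) : List ℕ := (stepL c)^[k0 c] w

def shiftL (c : Code) (w : List ℕ) (s : ℕ) : List ℕ := (List.range (KK c)).map (fun x => val w (zz c) x s)

def zeroL (c : Code) : List ℕ := (List.range (KK c)).map (fun _ => zz c)

def anyB (l : List Bool) : Bool := l.foldr (fun a b => a || b) false

theorem anyB_iff (l : List Bool) : anyB l = true ↔ true ∈ l := by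
  unfold anyB
  induction l with
  | nil => simp
  | cons a l ih =>
    rw [List.foldr_cons, Bool.or_eq_true, ih, List.mem_cons]
    constructor
    · rintro (h | h)
      · exact Or.inl h.symm
      · exact Or.inr h
    · rintro (h | h)
      · exact Or.inl h.symm
      · exact Or.inr h

def eqN (a b : ℕ) : Bool := decide (a = b)
def eqL (a b : List ℕ) : Bool := decide (a = b)

def chk (c : Code) (w : List ℕ) : Bool :=
  (!(eqN (w.getD 0 (zz c)) (zz c))) && (eqL (itL c w) (zeroL c) ||
    anyB ((List.range (RR c + 1)).map (fun s => eqL (itL c w) (shiftL c w s))))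

def wordsN (n : ℕ) (L : ℕ) : List (List ℕ) :=
  L.rec [[]] (fun _ r => r.flatMap (fun t => (List.range n).map (fun c => c :: t)))

/-- the decision procedure -/
def dec (c : Code) : Bool := anyB ((wordsN (nn c) (L0 c)).map (fun w => chk c w))

theorem mem_wordsN {n : ℕ} : ∀ {L : ℕ} {w : List ℕ}, w ∈ wordsN n L ↔ w.length = L ∧ ∀ x ∈ w, x < n := by
  intro L
  induction L with
  | zero =>
    intro w
    change w ∈ ([[]] : List (List ℕ)) ↔ _
    rw [List.mem_singleton]
    constructor
    · rintro rfl; simp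
    · rintro ⟨h, -⟩; exact List.length_eq_zero_iff.1 h
  | succ L ih =>
    intro w
    change w ∈ (wordsN n L).flatMap (fun t => (List.range n).map (fun c => c :: t)) ↔ _
    rw [List.mem_flatMap]
    constructor
    · rintro ⟨t, ht, hw⟩
      rw [List.mem_map] at hw
      obtain ⟨a, ha, rfl⟩ := hw
      obtain ⟨h1, h2⟩ := ih.1 ht
      refine ⟨by simp [h1], ?_⟩
      intro x hx
      rcases List.mem_cons.1 hx with rfl | hx
      · exact List.mem_range.1 ha
      · exact h2 x hx
    · rintro ⟨h1, h2⟩
      match w, h1 with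
      | a :: t, h1 =>
        refine ⟨t, ih.2 ⟨by simpa using h1, fun x hx => h2 x (List.mem_cons_of_mem _ hx)⟩, ?_⟩
        rw [List.mem_map]
        exact ⟨a, List.mem_range.2 (h2 a List.mem_cons_self), rfl⟩

/-! ### correctness -/

section correct

variable {A : Type} [AddCommGroup A] {n : ℕ} (e : A ≃ Fin n) (r : ℕ) (h : Fin (2 * r + 1) → A →+ A)

/-- the code of the abelian CA, for an enumeration `e` of the group -/
def code : Code :=
  (n, (r, (List.ofFn (fun a : Fin n => List.ofFn (fun b : Fin n => (e (e.symm a + e.symm b) : ℕ))),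
    List.ofFn (fun j : Fin (2 * r + 1) => List.ofFn (fun a : Fin n => (e (h j (e.symm a)) : ℕ))))))

/-- the index of an element -/
def E (a : A) : ℕ := (e a : ℕ)

theorem E_lt (a : A) : E e a < n := (e a).2

theorem E_inj {a b : A} (hab : E e a = E e b) : a = b := e.injective (Fin.ext hab)

theorem getD_ofFn {β : Type} {k : ℕ} (f : Fin k → β) (d : β) (i : ℕ) (hi : i < k) :
    (List.ofFn f).getD i d = f ⟨i, hi⟩ := by
  rw [List.getD_eq_getElem _ _ (by simpa using hi)]
  simp

theorem tb_T (a b : A) : tb (TT (code e r h)) (E e a) (E e b) = E e (a + b) := by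
  unfold tb TT code
  simp only
  rw [getD_ofFn _ _ _ (E_lt e a), getD_ofFn _ _ _ (E_lt e b)]
  simp [E]

theorem tb_H (j : ℕ) (hj : j < 2 * r + 1) (a : A) : tb (HH (code e r h)) j (E e a) = E e (h ⟨j, hj⟩ a) := by
  unfold tb HH code
  simp only
  rw [getD_ofFn _ _ _ hj, getD_ofFn _ _ _ (E_lt e a)]
  simp [E]

theorem zz_eq : zz (code e r h) = E e 0 := by
  have hT : ∀ z : ℕ, z < n → (tb (TT (code e r h)) z z = z ↔ z = E e 0) := by
    intro z hz
    have h1 : E e (e.symm ⟨z, hz⟩) = z := by simp [E]
    constructor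
    · intro h2
      rw [← h1, tb_T] at h2
      have h3 := E_inj e h2
      have h4 : e.symm ⟨z, hz⟩ = 0 := by simpa using h3
      rw [← h1, h4]
    · rintro rfl
      rw [tb_T, add_zero]
  have hlen : (TT (code e r h)).length = n := by simp [TT, code]
  unfold zz zr
  rw [hlen]
  have key : ∀ (k : ℕ), k ≤ n → (List.range k).foldl (fun acc z => if tb (TT (code e r h)) z z = z then z else acc) 0 =
      if E e 0 < k then E e 0 else 0 := by
    intro k
    induction k with
    | zero => intro _; simp
    | succ k ih =>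
      intro hk
      rw [List.range_succ, List.foldl_append, ih (by omega)]
      simp only [List.foldl_cons, List.foldl_nil]
      by_cases h1 : k = E e 0
      · rw [if_pos ((hT k (by omega)).2 h1), if_pos (by omega), h1]
      · rw [if_neg (fun h2 => h1 ((hT k (by omega)).1 h2))]
        by_cases h3 : E e 0 < k
        · rw [if_pos h3, if_pos (by omega)]
        · rw [if_neg h3, if_neg (by omega)]
  rw [key n le_rfl, if_pos (E_lt e 0)]

/-- the word `w` represents the configuration `f` on `[0, K)` -/
def Rep (K : ℕ) (w : List ℕ) (f : ℤ → A) : Prop :=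
  (∀ x : ℤ, x < 0 → f x = 0) ∧ ∀ x : ℕ, x < K → w.getD x (E e 0) = E e (f x)

theorem val_eq {K : ℕ} {w : List ℕ} {f : ℤ → A} (hr : Rep e K w f) {x : ℕ} (hx : x < K) (j : ℕ) :
    val w (E e 0) x j = E e (f (x - j)) := by
  unfold val
  split_ifs with hj
  · rw [hr.2 _ (by omega)]
    congr 2
    push_cast [hj]
    ring
  · rw [hr.1 _ (by omega)]

theorem getD_map_range (g : ℕ → ℕ) (K d x : ℕ) (hx : x < K) : ((List.range K).map g).getD x d = g x := by
  rw [List.getD_eq_getElem _ _ (by simpa using hx)]
  simp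

theorem rep_step {w : List ℕ} {f : ℤ → A} (hr : Rep e (KK (code e r h)) w f) :
    Rep e (KK (code e r h)) (stepL (code e r h) w) (os (2 * r + 1) (fun j => h j.rev) f) := by
  constructor
  · intro x hx
    rw [os_apply]
    exact Finset.sum_eq_zero fun j _ => by rw [hr.1 _ (by omega), map_zero]
  · intro x hx
    unfold stepL
    rw [getD_map_range _ _ _ _ hx, zz_eq]
    have hrr : rr (code e r h) = r := rfl
    rw [hrr]
    set g : ℕ → A := fun j => if hj : j < 2 * r + 1 then h (Fin.rev ⟨j, hj⟩) (f (x - j)) else 0 with hg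
    have key : ∀ k : ℕ, k ≤ 2 * r + 1 → (List.range k).foldl (fun acc j => tb (TT (code e r h)) acc
        (tb (HH (code e r h)) (2 * r - j) (val w (E e 0) x j))) (E e 0) = E e (∑ j ∈ Finset.range k, g j) := by
      intro k
      induction k with
      | zero => intro _; simp
      | succ k ih =>
        intro hk
        rw [List.range_succ, List.foldl_append, ih (by omega)]
        simp only [List.foldl_cons, List.foldl_nil]
        rw [val_eq e hr hx, tb_H e r h (2 * r - k) (by omega), tb_T, Finset.sum_range_succ]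
        congr 2
        simp only [hg]
        rw [dif_pos (by omega)]
        congr 2
        apply Fin.ext
        rw [Fin.val_rev]
        change 2 * r - k = 2 * r + 1 - (k + 1)
        omega
    rw [key _ le_rfl, os_apply]
    congr 1
    rw [← Fin.sum_univ_eq_sum_range]
    refine Finset.sum_congr rfl fun j _ => ?_
    simp only [hg]
    rw [dif_pos j.2]

theorem rep_iter {w : List ℕ} {f : ℤ → A} (hr : Rep e (KK (code e r h)) w f) (k : ℕ) :
    Rep e (KK (code e r h)) ((stepL (code e r h))^[k] w) ((os (2 * r + 1) (fun j => h j.rev))^[k] f) := by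
  induction k with
  | zero => exact hr
  | succ k ih =>
    rw [Function.iterate_succ_apply', Function.iterate_succ_apply']
    exact rep_step e r h ih

theorem eq_iff_rep {w w' : List ℕ} {K : ℕ} {f f' : ℤ → A} (hr : Rep e K w f) (hr' : Rep e K w' f')
    (hl : w.length = K) (hl' : w'.length = K) {L : ℕ} (hL : L ≤ K) (hs : Sup f L) (hs' : Sup f' L) :
    w = w' ↔ f = f' := by
  constructor
  · rintro rfl
    ext x
    by_cases hx : x < 0
    · rw [hr.1 x hx, hr'.1 x hx]
    · obtain ⟨y, rfl⟩ := Int.eq_ofNat_of_zero_le (not_lt.1 hx)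
      by_cases hy : y < K
      · apply E_inj e
        rw [← hr.2 y hy, ← hr'.2 y hy]
      · rw [hs.2 _ (by omega), hs'.2 _ (by omega)]
  · rintro rfl
    apply List.ext_getElem (by rw [hl, hl'])
    intro i h1 h2
    have a1 := hr.2 i (by omega)
    have a2 := hr'.2 i (by omega)
    rw [List.getD_eq_getElem _ _ h1] at a1
    rw [List.getD_eq_getElem _ _ h2] at a2
    rw [a1, a2]

theorem itL_length (w : List ℕ) : (itL (code e r h) w).length = KK (code e r h) := by
  unfold itL
  have : k0 (code e r h) = (k0 (code e r h) - 1) + 1 := by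
    have := kk_pos (nn (code e r h))
    unfold k0; omega
  rw [this, Function.iterate_succ_apply']
  simp [stepL]

theorem chk_iff {w : List ℕ} {f : ℤ → A} (hr : Rep e (KK (code e r h)) w f) (hs : Sup f (L0 (code e r h))) :
    chk (code e r h) w = true ↔ f 0 ≠ 0 ∧ ((os (2 * r + 1) (fun j => h j.rev))^[kk n] f = 0 ∨
      ∃ s : ℕ, s ≤ kk n * (2 * r + 1) ∧ ∀ x, (os (2 * r + 1) (fun j => h j.rev))^[kk n] f x = f (x - s)) := by
  unfold chk
  rw [Bool.and_eq_true, Bool.or_eq_true, anyB_iff, Bool.not_eq_true', eqN, decide_eq_false_iff_not, zz_eq, eqL,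
    decide_eq_true_iff]
  have hit : Rep e (KK (code e r h)) (itL (code e r h) w) ((os (2 * r + 1) (fun j => h j.rev))^[kk n] f) :=
    rep_iter e r h hr _
  have hRR : RR (code e r h) = kk n * (2 * r + 1) := rfl
  have hKK : KK (code e r h) = L0 (code e r h) + RR (code e r h) + 1 := rfl
  have hsit := sup_iter (2 * r + 1) (fun j => h j.rev) hs (kk n)
  rw [← hRR] at hsit ⊢
  refine and_congr ?_ (or_congr ?_ ?_)
  · rw [hr.2 0 (by omega)]
    constructor
    · intro h1 h2
      exact h1 (by rw [← h2]; rfl)
    · intro h1 h2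
      exact h1 (E_inj e h2)
  · have hz : Rep e (KK (code e r h)) (zeroL (code e r h)) (0 : ℤ → A) := by
      refine ⟨fun _ _ => rfl, fun x hx => ?_⟩
      unfold zeroL
      rw [getD_map_range _ _ _ _ hx, zz_eq]
      rfl
    exact eq_iff_rep e hit hz (itL_length e r h w) (by simp [zeroL]) (by omega) hsit ⟨fun _ _ => rfl, fun _ _ => rfl⟩
  · rw [List.mem_map]
    have hsh : ∀ s : ℕ, s ≤ RR (code e r h) → (itL (code e r h) w = shiftL (code e r h) w s ↔
        ∀ x, (os (2 * r + 1) (fun j => h j.rev))^[kk n] f x = f (x - s)) := by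
      intro s hsR
      have hz : Rep e (KK (code e r h)) (shiftL (code e r h) w s) (fun x => f (x - s)) := by
        refine ⟨fun x hx => hr.1 _ (by omega), fun x hx => ?_⟩
        unfold shiftL
        rw [getD_map_range _ _ _ _ hx, zz_eq, val_eq e hr hx]
      have hsup : Sup (fun x => f (x - s)) (L0 (code e r h) + RR (code e r h)) :=
        ⟨fun x hx => hs.1 _ (by omega), fun x hx => hs.2 _ (by omega)⟩
      rw [eq_iff_rep e hit hz (itL_length e r h w) (by simp [shiftL]) (by omega) hsit hsup]
      constructor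
      · intro h1 x; exact congrFun h1 x
      · intro h1; exact funext h1
    constructor
    · rintro ⟨s, hs1, hs2⟩
      rw [List.mem_range] at hs1
      rw [eqL, decide_eq_true_iff] at hs2
      exact ⟨s, by omega, (hsh s (by omega)).1 hs2⟩
    · rintro ⟨s, hs1, hs2⟩
      refine ⟨s, List.mem_range.2 (by omega), ?_⟩
      rw [eqL, decide_eq_true_iff]
      exact (hsh s hs1).2 hs2

theorem dec_iff : dec (code e r h) = true ↔ HasSoliton (ca r h) := by
  haveI : Finite A := Finite.of_equiv _ e.symm
  have hcard : Nat.card A = n := by rw [Nat.card_congr e, Nat.card_fin]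
  rw [soliton_iff, hcard]
  unfold dec
  rw [anyB_iff, List.mem_map]
  have hL0 : L0 (code e r h) = n ^ (kk n * (2 * r + 1)) + 1 := rfl
  have hKK : KK (code e r h) = L0 (code e r h) + RR (code e r h) + 1 := rfl
  have hnn : nn (code e r h) = n := rfl
  rw [hnn, ← hL0]
  constructor
  · rintro ⟨w, hw, hc⟩
    obtain ⟨hl, hlt⟩ := mem_wordsN.1 hw
    have hlt' : ∀ x : ℕ, w.getD x (E e 0) < n := by
      intro x
      by_cases hx : x < w.length
      · rw [List.getD_eq_getElem _ _ hx]; exact hlt _ (List.getElem_mem hx)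
      · rw [List.getD_eq_default _ _ (by omega)]; exact E_lt e 0
    set f : ℤ → A := fun x => if x < 0 then 0 else e.symm ⟨w.getD x.toNat (E e 0), hlt' _⟩ with hf
    have hr : Rep e (KK (code e r h)) w f := by
      refine ⟨fun x hx => by simp only [hf]; rw [if_pos hx], fun x _ => ?_⟩
      simp only [hf]
      rw [if_neg (by omega)]
      simp [E]
    have hs : Sup f (L0 (code e r h)) := by
      refine ⟨hr.1, fun x hx => ?_⟩
      simp only [hf]
      rw [if_neg (by omega)]
      apply E_inj e
      have h1 : w.getD x.toNat (E e 0) = E e 0 := List.getD_eq_default _ _ (by omega)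
      simp only [E, Equiv.apply_symm_apply]
      exact h1
    obtain ⟨h1, h2⟩ := (chk_iff e r h hr hs).1 hc
    exact ⟨f, h1, hs, h2⟩
  · rintro ⟨u, hu0, hs, hu⟩
    refine ⟨(List.range (L0 (code e r h))).map (fun x : ℕ => E e (u x)), ?_, ?_⟩
    · rw [mem_wordsN]
      refine ⟨by simp, ?_⟩
      intro x hx
      rw [List.mem_map] at hx
      obtain ⟨y, _, rfl⟩ := hx
      exact E_lt e _
    · have hr : Rep e (KK (code e r h)) ((List.range (L0 (code e r h))).map (fun x : ℕ => E e (u x))) u := by
        refine ⟨hs.1, fun x hx => ?_⟩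
        by_cases h1 : x < L0 (code e r h)
        · rw [getD_map_range _ _ _ _ h1]
        · rw [List.getD_eq_default _ _ (by simpa using h1), hs.2 _ (by omega)]
      exact (chk_iff e r h hr hs).2 ⟨hu0, hu⟩

end correct

/-! ### computability -/

section prim

variable {α : Type} [Primcodable α]

theorem p_tb {T : α → List (List ℕ)} {f g : α → ℕ} (hT : Primrec T) (hf : Primrec f) (hg : Primrec g) :
    Primrec (fun a => tb (T a) (f a) (g a)) :=
  (Primrec.list_getD 0).comp ((Primrec.list_getD []).comp hT hf) hg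

theorem p_zr {T : α → List (List ℕ)} (hT : Primrec T) : Primrec (fun a => zr (T a)) := by
  unfold zr
  refine Primrec.list_foldl (f := fun a => List.range (T a).length) (g := fun _ => 0)
    (h := fun (a : α) (p : ℕ × ℕ) => if tb (T a) p.2 p.2 = p.2 then p.2 else p.1)
    (Primrec.list_range.comp (Primrec.list_length.comp hT)) (Primrec.const 0) ?_
  have h2 : Primrec (fun q : α × (ℕ × ℕ) => q.2.2) := Primrec.snd.comp Primrec.snd
  have h1 : Primrec (fun q : α × (ℕ × ℕ) => q.2.1) := Primrec.fst.comp Primrec.snd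
  exact Primrec.ite (Primrec.eq.comp (p_tb (hT.comp Primrec.fst) h2 h2) h2) h2 h1

theorem p_val {w : α → List ℕ} {z x j : α → ℕ} (hw : Primrec w) (hz : Primrec z) (hx : Primrec x) (hj : Primrec j) :
    Primrec (fun a => val (w a) (z a) (x a) (j a)) := by
  unfold val
  refine Primrec.ite (Primrec.nat_le.comp hj hx) ?_ hz
  have h1 : Primrec (fun a => ((w a)[x a - j a]?).getD (z a)) :=
    Primrec.option_getD.comp (Primrec.list_getElem?.comp hw (Primrec.nat_sub.comp hx hj)) hz
  refine h1.of_eq fun a => ?_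
  rw [List.getD_eq_getElem?_getD]

theorem prim_pow : Primrec₂ (fun a n : ℕ => a ^ n) := by
  have h : Primrec₂ (fun (a n : ℕ) => n.rec (motive := fun _ => ℕ) 1 (fun _ r => r * a)) :=
    Primrec.nat_rec (f := fun _ : ℕ => 1) (g := fun a (p : ℕ × ℕ) => p.2 * a) (Primrec.const 1)
      (Primrec.nat_mul.comp (Primrec.snd.comp Primrec.snd) Primrec.fst)
  refine h.of_eq fun a n => ?_
  induction n with
  | zero => rfl
  | succ n ih => rw [pow_succ, ← ih]

theorem prim_fact : Primrec Nat.factorial := by
  have h : Primrec (fun (n : ℕ) => n.rec (motive := fun _ => ℕ) 1 (fun m r => (m + 1) * r)) :=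
    Primrec.nat_rec₁ 1 (Primrec.nat_mul.comp (Primrec.succ.comp Primrec.fst) Primrec.snd)
  refine h.of_eq fun n => ?_
  induction n with
  | zero => rfl
  | succ n ih => rw [Nat.factorial_succ, ← ih]

theorem p_nn : Primrec nn := Primrec.fst
theorem p_rr : Primrec rr := Primrec.fst.comp Primrec.snd
theorem p_TT : Primrec TT := Primrec.fst.comp (Primrec.snd.comp Primrec.snd)
theorem p_HH : Primrec HH := Primrec.snd.comp (Primrec.snd.comp Primrec.snd)
theorem p_zz : Primrec zz := p_zr p_TT
theorem p_k0 : Primrec k0 := Primrec.nat_mul.comp (prim_fact.comp p_nn) (prim_fact.comp p_nn)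
theorem p_RR : Primrec RR :=
  Primrec.nat_mul.comp p_k0 (Primrec.succ.comp (Primrec.nat_mul.comp (Primrec.const 2) p_rr))
theorem p_L0 : Primrec L0 := Primrec.succ.comp (prim_pow.comp p_nn p_RR)
theorem p_KK : Primrec KK := Primrec.succ.comp (Primrec.nat_add.comp p_L0 p_RR)

theorem p_stepL : Primrec₂ stepL := by
  unfold stepL
  refine Primrec.list_map (f := fun p : Code × List ℕ => List.range (KK p.1))
    (Primrec.list_range.comp (p_KK.comp Primrec.fst)) ?_
  refine Primrec.list_foldl (f := fun q : (Code × List ℕ) × ℕ => List.range (2 * rr q.1.1 + 1))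
    (g := fun q => zz q.1.1)
    (h := fun (q : (Code × List ℕ) × ℕ) (p : ℕ × ℕ) =>
      tb (TT q.1.1) p.1 (tb (HH q.1.1) (2 * rr q.1.1 - p.2) (val q.1.2 (zz q.1.1) q.2 p.2)))
    ?_ ?_ ?_
  · exact Primrec.list_range.comp (Primrec.succ.comp (Primrec.nat_mul.comp (Primrec.const 2)
      (p_rr.comp (Primrec.fst.comp Primrec.fst))))
  · exact p_zz.comp (Primrec.fst.comp Primrec.fst)
  · have c1 : Primrec (fun x : ((Code × List ℕ) × ℕ) × (ℕ × ℕ) => x.1.1.1) :=
      Primrec.fst.comp (Primrec.fst.comp Primrec.fst)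
    have w1 : Primrec (fun x : ((Code × List ℕ) × ℕ) × (ℕ × ℕ) => x.1.1.2) :=
      Primrec.snd.comp (Primrec.fst.comp Primrec.fst)
    have x1 : Primrec (fun x : ((Code × List ℕ) × ℕ) × (ℕ × ℕ) => x.1.2) := Primrec.snd.comp Primrec.fst
    have a1 : Primrec (fun x : ((Code × List ℕ) × ℕ) × (ℕ × ℕ) => x.2.1) := Primrec.fst.comp Primrec.snd
    have j1 : Primrec (fun x : ((Code × List ℕ) × ℕ) × (ℕ × ℕ) => x.2.2) := Primrec.snd.comp Primrec.snd
    exact p_tb (p_TT.comp c1) a1 (p_tb (p_HH.comp c1)
      (Primrec.nat_sub.comp (Primrec.nat_mul.comp (Primrec.const 2) (p_rr.comp c1)) j1)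
      (p_val w1 (p_zz.comp c1) x1 j1))

theorem p_itL : Primrec₂ itL := by
  unfold itL
  exact Primrec.nat_iterate (f := fun p : Code × List ℕ => k0 p.1) (g := fun p => p.2)
    (h := fun p w => stepL p.1 w) (p_k0.comp Primrec.fst) Primrec.snd
    (p_stepL.comp (Primrec.fst.comp Primrec.fst) Primrec.snd)

theorem p_shiftL : Primrec (fun p : (Code × List ℕ) × ℕ => shiftL p.1.1 p.1.2 p.2) := by
  unfold shiftL
  refine Primrec.list_map (f := fun p : (Code × List ℕ) × ℕ => List.range (KK p.1.1))
    (Primrec.list_range.comp (p_KK.comp (Primrec.fst.comp Primrec.fst))) ?_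
  exact p_val (Primrec.snd.comp (Primrec.fst.comp Primrec.fst))
    (p_zz.comp (Primrec.fst.comp (Primrec.fst.comp Primrec.fst))) Primrec.snd (Primrec.snd.comp Primrec.fst)

theorem p_zeroL : Primrec zeroL := by
  unfold zeroL
  exact Primrec.list_map (Primrec.list_range.comp p_KK) (p_zz.comp Primrec.fst)

theorem p_anyB {f : α → List Bool} (hf : Primrec f) : Primrec (fun a => anyB (f a)) := by
  unfold anyB
  exact Primrec.list_foldr (h := fun _ p => p.1 || p.2) hf (Primrec.const false)
    (Primrec.or.comp (Primrec.fst.comp Primrec.snd) (Primrec.snd.comp Primrec.snd))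

theorem p_eqN : Primrec₂ eqN := by
  unfold eqN
  exact Primrec.eq.decide

theorem p_eqL : Primrec₂ eqL := by
  unfold eqL
  exact Primrec.eq.decide

theorem p_shifts : Primrec₂ (fun (c : Code) (w : List ℕ) =>
    (List.range (RR c + 1)).map (fun s => eqL (itL c w) (shiftL c w s))) := by
  have hi : Primrec (fun p : Code × List ℕ => itL p.1 p.2) := p_itL
  refine Primrec.list_map (f := fun p : Code × List ℕ => List.range (RR p.1 + 1))
    (g := fun (p : Code × List ℕ) (s : ℕ) => eqL (itL p.1 p.2) (shiftL p.1 p.2 s))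
    (Primrec.list_range.comp (Primrec.succ.comp (p_RR.comp Primrec.fst))) ?_
  exact p_eqL.comp (hi.comp Primrec.fst) p_shiftL

theorem p_chk : Primrec₂ chk := by
  unfold chk
  have hz : Primrec (fun p : Code × List ℕ => zz p.1) := p_zz.comp Primrec.fst
  have hi : Primrec (fun p : Code × List ℕ => itL p.1 p.2) := p_itL
  have h0 : Primrec (fun p : Code × List ℕ => p.2.getD 0 (zz p.1)) := by
    have h1 : Primrec (fun p : Code × List ℕ => (p.2[0]?).getD (zz p.1)) :=
      Primrec.option_getD.comp (Primrec.list_getElem?.comp Primrec.snd (Primrec.const 0)) hz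
    refine h1.of_eq fun a => ?_
    rw [List.getD_eq_getElem?_getD]
  have ha : Primrec (fun p : Code × List ℕ => eqN (p.2.getD 0 (zz p.1)) (zz p.1)) := p_eqN.comp h0 hz
  have hb : Primrec (fun p : Code × List ℕ => eqL (itL p.1 p.2) (zeroL p.1)) :=
    p_eqL.comp hi (p_zeroL.comp Primrec.fst)
  have hc : Primrec (fun p : Code × List ℕ =>
      anyB ((List.range (RR p.1 + 1)).map (fun s => eqL (itL p.1 p.2) (shiftL p.1 p.2 s)))) :=
    p_anyB p_shifts
  exact Primrec.and.comp (Primrec.not.comp ha) (Primrec.or.comp hb hc)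

theorem p_wordsN : Primrec₂ wordsN := by
  unfold wordsN
  refine Primrec.nat_rec (f := fun _ : ℕ => [[]])
    (g := fun (n : ℕ) (q : ℕ × List (List ℕ)) =>
      q.2.flatMap (fun t => (List.range n).map (fun c => c :: t))) (Primrec.const _) ?_
  refine Primrec.list_flatMap (Primrec.snd.comp Primrec.snd) ?_
  refine Primrec.list_map (Primrec.list_range.comp (Primrec.fst.comp Primrec.fst)) ?_
  exact Primrec.list_cons.comp Primrec.snd (Primrec.snd.comp Primrec.fst)

theorem p_dec : Primrec dec := by
  unfold dec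
  refine p_anyB (Primrec.list_map (p_wordsN.comp p_nn p_L0) ?_)
  exact p_chk

end prim

end Pool.X247.SO
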